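import Pool.Agent.Q27.TF.Final

/-!
# Thompson's group `F` is Cayley position-faithful (one-tape) linear-time computable

The group `F = ⟨x₀, x₁ | [x₀ x₁⁻¹, x₀⁻¹ x₁ x₀], [x₀ x₁⁻¹, x₀⁻² x₁ x₀²]⟩` is defined in
`Pool/Agent/Q27/TF/Group.lean`, automatic functions (`Automatic`) in `Pool/Agent/Q27/LT/Conv.lean`,
and position-faithful one-tape Turing machines and `LinTime` in `Pool/Agent/Q27/LT/Tm.lean`.
-/

namespace Pool.Agent.Results.MP_7161f1_al.OneTapeLinearTime

open Pool.Agent.Q27.LT

/-- The group `G` is Cayley position-faithful (one-tape) linear-time computable with respect to the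
set `S`: there are a finite alphabet `A`, a language `L` over `A` and a bijection `ψ : L → G` such
that for every `s ∈ S` some function `f` on all words over `A`, which is automatic and which is
computed in linear time by a position-faithful one-tape Turing machine, maps `L` to `L` and realises
the right multiplication by `s`. -/
def CayleyLinear (G : Type) [Group G] (S : Set G) : Prop :=
  ∃ (A : Type) (_ : Finite A) (L : Set (List A)) (ψ : L ≃ G), ∀ s ∈ S,
    ∃ f : List A → List A, Automatic f ∧ LinTime f ∧ ∀ w : L, ∃ h : f w ∈ L, ψ ⟨f w, h⟩ = ψ w * s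

/-- Thompson's group `F` is generated, as a monoid, by a finite set, and it is Cayley
position-faithful (one-tape) linear-time computable with respect to every set `S` of elements
(finite or not). -/
theorem result : (∃ S : Set Pool.Agent.Q27.TF.F, S.Finite ∧ Submonoid.closure S = ⊤) ∧
    ∀ S : Set Pool.Agent.Q27.TF.F, CayleyLinear Pool.Agent.Q27.TF.F S := by
  refine ⟨⟨{PresentedGroup.of 0, PresentedGroup.of 1} ∪
    {PresentedGroup.of 0, PresentedGroup.of 1}⁻¹, ?_, ?_⟩, fun S => ?_⟩
  · exact (Set.toFinite _).union (Set.toFinite _).inv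
  · rw [← Subgroup.closure_toSubmonoid, Pool.Agent.Q27.TF.gen_finite]; rfl
  · obtain ⟨A, hA, L, ψ, h⟩ := Pool.Agent.Q27.TF.cayley
    exact ⟨A, hA, L, ψ, fun s _ => h s⟩

end Pool.Agent.Results.MP_7161f1_al.OneTapeLinearTime
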